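import Pool.Agent.Helper93.TLE.StB
import Pool.Agent.Helper76.S7.StC

/-!
# Project TLE (levels `4·7^n`): the base of the dimension chain

`SEHk`, ..., `SEB3a`, `SECoreOf` of `StB.lean` are for every odd prime `p`. Here `p = 7`: level `49` has dimension three (the newforms of level `196` of root number `+1`), level `7` dimension zero.
-/

set_option autoImplicit false

namespace Pool.Agent.Helper93.TLE

open Pool.Agent.Helper14.CV (Homog EqC act Tl StFar StFex)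
open Pool.Agent.Helper28.WK (Tw evw)
open Pool.Agent.Helper4.TL

/-- The dimension of the new symbols of level `7^n` (`W = -1`, `* = +1`, twisted by `eps`), `n ≥ 3`: `12, 90, 588, ...`. `DDE 3 ddE7 (2k) = 2t² + t`, `DDE 3 ddE7 (2k+1) = 14t² + t`, `t = 7^(k-1)`. -/
def ddE7 (n : ℕ) : ℕ :=
  if n % 2 = 1 then 12 * 49 ^ (n / 2 - 1) else 84 * 49 ^ (n / 2 - 2) + 6 * 7 ^ (n / 2 - 2)

/-- The content of BS7: a symbol `K` of level `49` with `K∘W ≈ -K`, `K∘* ≈ K` and `K(∞) = K(1/7) = K(4/21) = K(2/7)` is constant. -/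
def Bs7 : Prop := ∀ K : ℤ → ℤ → ℂ, SymE 7 0 2 K → EqC (act 0 (-1) ((7 : ℤ) ^ 2) 0 K) (-K) →
  EqC (act (-1) 0 0 1 K) K → K 1 0 = K 1 7 → K 1 7 = K 4 21 → K 4 21 = K 2 7 → EqC K 0

/-- BS7 (from FAR of CV, `Pool.Agent.Helper38.CV.hFar`, and REP of W7, proved in `Pool/Agent/Helper22/S7/M_Rep.lean`). Proof: subtract a constant so that `K2(x,y) = K(x, 7y)` vanishes at `∞, 1, 4/3, 2`. `K2∘γ ≈ eps(γ) K2` for the group `Γ'` of all `(a 7b; 7c d)` of determinant one, `K2∘S ≈ -K2`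
(`S = (0 -1; 1 0)`), `K2∘* ≈ K2`. `K2∘* = K2` exactly (value at `∞`); `K2(-1) = K2(1) = 0`, so `K2∘S = -K2` exactly (`S 1 = -1`); so `K2(0) = 0`, `K2(±1/2) = 0`, and `K2∘b = -K2` for `b = (0 1; 1 0)`. `δ = (7 -10; 5 -7) = S (5 -7; -7 10)` (`eps (5 -7; -7 10) = 1`) maps `1 ↦ 3/2`, `2 ↦ 4/3`: `K2∘δ = -K2 + c`,
`c = K2(4/3) + K2(2) = 0`, so `K2(3/2) = 0`. `K2(z + 7) = -K2(z)` (`eps (1 7; 0 1) = -1`, constant zero by the value at `∞`). `c2 = (7 -16; 3 -7) = b (3 -7; 7 -16)` (`eps (3 -7; 7 -16) = 1`) fixes `2`: `K2∘c2 = -K2`. `c3 = (14 -39; 5 -14) = b (5 -14; 14 -39)` (`eps = 1`) fixes `3`: `K2∘c3 = -K2 + 2u`, `u = K2(3)`. As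
`c2 c3 c2 = - c3 c2 c3`: `-K2 - 2u = -K2 + 4u`, so `u = 0`. `K2(4) = -K2(-3) = 0`, `K2(±1/3) = 0`, `K2(±2/3) = -K2(±3/2) = 0`, `K2(5/2) = K2(c2 3) = 0`, `K2(-5/2) = 0`. So `K2` vanishes at the twenty cusps
`∞, 0, ±1, ±2, ±3, ±4, ±1/2, ±1/3, ±2/3, ±3/2, ±5/2`; FAR with the 56 classes `rep49` (`S7Rep`: every `g` of `SL₂(ℤ)` is `g' m`, `g'` in `Γ'`, `m` in `rep49`, whose two cusps are in the list: `K2(g'v) - K2(g'w) = eps(g') (K2 v - K2 w) = 0`). Model: `Pool/Agent/Helper2/S7/M_L2.lean` (the same without signs). -/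
def SEBs7 : Prop := StFar → Pool.Agent.Helper76.S7.S7Rep → Bs7

/-- B3b for `p = 7`, `D = 3`: the same proof as `SEB3b5`, with the three values `K 1 0 - K 1 7`, `K 1 7 - K 4 21`, `K 4 21 - K 2 7`. -/
def SEB3b7 : Prop := SEAvg → SEEv → Bs7 → B3bE 7 3

/-- CORE2 for level `49`: the same proof as `SECore2` (three values, `D = 3`). -/
def SECore27 : Prop := ∀ dd : ℕ → ℕ, SEAvg → SEEv → Bs7 → LBE 7 3 dd → CoreW 7 2

/-- CORE1 (level `7`; from FAR of CV): every symbol of level `7` is constant (the hypotheses on `W`, `*`, words are not needed). Proof: for `g = (a b; 7c d)` of determinant one `G(gv) - G(gw) = eps(g) (G v - G w)`. `α = (2 -1; 7 -3)`, `eps α = 1`, maps `0 ↦ 1/3 ↦ 1/2 ↦ 0`: with `x = G(1/3) - G(0)` also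
`G(1/2) - G(1/3) = x`, `G(0) - G(1/2) = x`, so `3x = 0`: `G(0) = G(1/2)`. `β = (-5 3; -7 4)`, `eps β = 1`, maps `1 ↦ 2/3 ↦ 1/2 ↦ 1`: `G(1/2) = G(1)` in the same way. `T = (1 1; 0 1)`, `eps T = -1`: `G(1) - G(∞) = -(G(0) - G(∞))`, so `G(0) = G(∞)`. So `∞ ~ 0 ~ 1 ~ 1/2` (equal values at `gv`, `gw` for all `g` in
`Γ₀(7)`), and by `T⁻¹` `-1/2 ~ -1 ~ ∞`. Every `g` in `SL₂(ℤ)` is `g' ρ` or `g' ρ S` with `g'` in `Γ₀(7)` and `ρ` one of `1`, `(1 0; 1 1)`, `(1 0; 2 1)`, `(1 0; -2 1)` (bottom row modulo `7` up to scalars), cusps `0`, `∞, 1, 1/2, -1/2`: FAR. -/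
def SECore17 : Prop := StFar → CoreW 7 1

end Pool.Agent.Helper93.TLE
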