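import Pool.Agent.Helper93.TLE.Defs

/-!
# Project TLE (levels `4 p^n`, `p` odd): Hecke operators and the dimension chain

Copies of the statements of `Helper14/W5/StB.lean` (project W5) with the sign character `eps`: symbols satisfy
`G∘γ ≈ eps(γ) G`, Hecke operators and averages use EVEN translations (matrices which are the identity modulo `2`, so
`eps = 1`). The proofs of the modules of project W5 (`Pool/Agent/Helper*/W5/M_*.lean`) can be adapted. `W = act 0 (-1) (p^n) 0`,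
`* = act (-1) 0 0 1`; convention `act M (act M' G) = act (M' M) G`.
-/

set_option autoImplicit false

namespace Pool.Agent.Helper93.TLE

open Pool.Agent.Helper14.CV (Homog EqC act Tl StFar StFex)
open Pool.Agent.Helper28.WK (Tw evw)
open Pool.Agent.Helper4.TL

/-- HK. Hecke sum over any system of representatives, with signs. Proof: `StN1` of CV (`Pool.Agent.Helper10.CV.hN1`) with `N = p^n` gives `δ P = γ_P std (π P)`,
`γ_P` in `Γ₀(p^n)`, `std = (1 j; 0 l)` (`0 ≤ j < l`) or `(l 0; 0 1)`; `eps(δ P) = eps(γ_P) eps(std)` and `G(γ_P w) ≈ eps(γ_P) G(w)`, so the left side is `≈ ∑ eps(std) G(std v)`. `eps(1 j; 0 l)` is `1` for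
even `j` and `-1` for odd `j` (`l` odd); for odd `j` `-G((1 j; 0 l) v) ≈ G((1 (j+l); 0 l) v)` (`(1 1; 0 1)` has sign `-1`). The numbers `j` (`j < l` even), `j + l` (`j < l` odd) are exactly the numbers `2 j'`, `0 ≤ j' < l`.
Model: `Pool/Agent/Helper69/W5/M_PHk.lean`. -/
def SEHk : Prop := ∀ (p : ℕ), p.Prime → p ≠ 2 → ∀ (R : Type) (_ : AddCommGroup R) (n l : ℕ)
  (G : ℤ → ℤ → R), l.Prime → l ≠ p → l ≠ 2 → SymE p 0 n G →
  ∀ δ : Fin (l + 1) → Matrix (Fin 2) (Fin 2) ℤ,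
  (∀ P, (δ P).det = l) → (∀ P, (p : ℤ) ^ n ∣ δ P 1 0) →
  (∀ P P', P ≠ P' → ¬ ∀ i j, (l : ℤ) ∣ (δ P * (δ P').adjugate) i j) →
  EqC (fun x y => ∑ P, eps (δ P 0 0) (δ P 0 1) (δ P 1 0) (δ P 1 1) •
    G (δ P 0 0 * x + δ P 0 1 * y) (δ P 1 0 * x + δ P 1 1 * y)) (Tl l 2 G)

/-- HKS (from HK). `T_l` preserves symbols: HK for the family `std_P γ` (`std_P = (1 2j; 0 l), (l 0; 0 1)`, `eps(std_P γ) = eps(γ)`). Model: `Pool/Agent/Helper*/W5/M_P*.lean`, `S3HkS`. -/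
def SEHkS : Prop := ∀ (p : ℕ), p.Prime → p ≠ 2 → ∀ (R : Type) (_ : AddCommGroup R) (n : ℕ)
  (G : ℤ → ℤ → R), SymE p 0 n G → ∀ l : ℕ, l.Prime → l ≠ p → l ≠ 2 → SymE p 0 n (Tl l 2 G)

/-- HKW (from HK). `T_l` commutes with `W` and with `*`: HK for the families `W std_P W⁻¹ = (l 0; -2jp^n 1), (1 0; 0 l)` and `* std_P * = (1 -2j; 0 l), (l 0; 0 1)`, all the identity modulo `2` (`eps = 1`).
Model: `Pool/Agent/Helper43/W5/M_PHkW.lean`. -/
def SEHkW : Prop := ∀ (p : ℕ), p.Prime → p ≠ 2 → ∀ (R : Type) (_ : AddCommGroup R) (n : ℕ)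
  (G : ℤ → ℤ → R), SymE p 0 n G → ∀ l : ℕ, l.Prime → l ≠ p → l ≠ 2 →
    EqC (Tl l 2 (act 0 (-1) ((p : ℤ) ^ n) 0 G)) (act 0 (-1) ((p : ℤ) ^ n) 0 (Tl l 2 G)) ∧
    EqC (Tl l 2 (act (-1) 0 0 1 G)) (act (-1) 0 0 1 (Tl l 2 G))

/-- EV (from HKS, HKW). `W` exchanges the two ends of `{0, ∞}`: the values at words change sign; `*` fixes them (induction on the word; `EqC.Tl`, `Homog`). Model: the proof of `SPEv` in project W5. -/
def SEEv : Prop := ∀ (p : ℕ), p.Prime → p ≠ 2 → ∀ (R : Type) (_ : AddCommGroup R) (n : ℕ)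
  (G : ℤ → ℤ → R), SymE p 0 n G → ∀ ls : List ℕ, OkE p ls →
  evw 2 ls (act 0 (-1) ((p : ℤ) ^ n) 0 G) = -evw 2 ls G ∧ evw 2 ls (act (-1) 0 0 1 G) = evw 2 ls G

/-- AVG (`n ≥ 2`, `N = p^n`, `M = p^(n-1)`). (a) `tSE`, `sSE` preserve symbols of level `p^n`; (b) `sSE p n G` has level `p^(n-1)`; (c) so has
`act W (tSE p G)`; (d) `W` and `*` preserve symbols of level `p^n`. Proof as for `SPAvg` of W5 with `2i` in place of `i`; all the matrices `(p 2i; 0 p)`, `(1 0; 2iM 1)` are the identity modulo `2`, so the element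
`γ'` of `Γ₀` in `σ^(2i) γ = γ' σ^(2i')`, `t^(2i) γ = γ' t^(2i')` satisfies `γ' ≡ γ` modulo `2`, `eps γ' = eps γ`; for (d) `W γ = γ' W` with `γ' = (d -c/N; -Nb a)`, `eps γ' = eps γ` (conjugate modulo `2`), `* γ * ≡ γ` modulo `2`.
Model: `Pool/Agent/Helper7/W5/M_PAvg.lean`. -/
def SEAvg : Prop := ∀ (p : ℕ), p.Prime → p ≠ 2 → ∀ (n : ℕ) (G : ℤ → ℤ → ℂ), 2 ≤ n → SymE p 0 n G →
  SymE p 0 n (tSE p G) ∧ SymE p 0 (n - 1) (sSE p n G) ∧
  SymE p 0 (n - 1) (act 0 (-1) ((p : ℤ) ^ n) 0 (tSE p G)) ∧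
  SymE p 0 n (act 0 (-1) ((p : ℤ) ^ n) 0 G) ∧ SymE p 0 n (act (-1) 0 0 1 G)

/-- MON. A symbol of level `p^m` is one of level `p^n`, `n ≥ m`. -/
def SEMon : Prop := ∀ (p : ℕ) (R : Type) (_ : AddCommGroup R) (m n : ℕ) (G : ℤ → ℤ → R), m ≤ n →
  SymE p 0 m G → SymE p 0 n G

/-- COM (`n ≥ 3`). Relations up to constants, each from an identity of integral matrices up to a scalar and an element of `Γ₀(p^n)`, the identity modulo `2`, on the left (`SymE`; `eps = 1`): as `SPCom` of W5 with `2i` in place of `i`: `t^(2i) t^(2j)`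
is `t^(2(i+j))` up to the scalar `p`, `t^(2(i+p)) = (1 2; 0 1) t^(2i)`, `σ^(2p)` is in `Γ₀(p^n)`, `t^(2i) σ^(2j)` and `σ^(2j) t^(2i)` differ by an element of `Γ₀(p^n)` which is the identity modulo `2` (entries as in `SPCom`); `W t^(2i)` is `σ^(-2i) W`, `W σ^(2i)` is
`t^(-2i) W` up to a scalar; `* t^(2i) = t^(-2i) *`, `* σ^(2i) = σ^(-2i) *`, `* W = - W *`; sums over all residues modulo `p` may be reindexed. -/
def SECom : Prop := ∀ (p : ℕ), p.Prime → p ≠ 2 → ∀ (n : ℕ) (G : ℤ → ℤ → ℂ), 3 ≤ n → SymE p 0 n G →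
  EqC (tSE p (tSE p G)) ((p : ℂ) • tSE p G) ∧
  EqC (sSE p n (sSE p n G)) ((p : ℂ) • sSE p n G) ∧
  EqC (tSE p (sSE p n G)) (sSE p n (tSE p G)) ∧
  EqC (tSE p (act 0 (-1) ((p : ℤ) ^ n) 0 G)) (act 0 (-1) ((p : ℤ) ^ n) 0 (sSE p n G)) ∧
  EqC (sSE p n (act 0 (-1) ((p : ℤ) ^ n) 0 G)) (act 0 (-1) ((p : ℤ) ^ n) 0 (tSE p G)) ∧
  EqC (tSE p (act (-1) 0 0 1 G)) (act (-1) 0 0 1 (tSE p G)) ∧
  EqC (sSE p n (act (-1) 0 0 1 G)) (act (-1) 0 0 1 (sSE p n G)) ∧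
  EqC (act 0 (-1) ((p : ℤ) ^ n) 0 (act 0 (-1) ((p : ℤ) ^ n) 0 G)) G ∧
  EqC (act (-1) 0 0 1 (act (-1) 0 0 1 G)) G ∧
  EqC (act 0 (-1) ((p : ℤ) ^ n) 0 (act (-1) 0 0 1 G)) (act (-1) 0 0 1 (act 0 (-1) ((p : ℤ) ^ n) 0 G))

/-- B3a (from AVG, MON, COM, EV). Decomposition: every symbol of level `p^n` (`n ≥ 3`) has the same values at words as a symbol of level `p^(n-1)` plus a new symbol with `W = -1`, `* = 1`. Proof: put
`A = tSE G / p`, `B = G - A`, `C = sSE B / p`, `E = B - C`, `F = (E - E∘W)/2`, `G1 = (F + F∘*)/2`, `G0 = C - A∘W`, as in `Pool/Agent/Helper37/W5/M_PB3a.lean`. -/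
def SEB3a : Prop := ∀ (p : ℕ), p.Prime → p ≠ 2 → ∀ (n : ℕ) (G : ℤ → ℤ → ℂ), 3 ≤ n → SymE p 0 n G →
  ∃ G0 G1 : ℤ → ℤ → ℂ, SymE p 0 (n - 1) G0 ∧ NewSymE p n G1 ∧
    ∀ ls : List ℕ, OkE p ls → evw 2 ls G = evw 2 ls G0 + evw 2 ls G1

/-- The content of BS5: a symbol `K` of level `25` with `K∘W ≈ -K`, `K∘* ≈ K` and `K(∞) = K(1/5) = K(2/5)` is constant. -/
def Bs5 : Prop := ∀ K : ℤ → ℤ → ℂ, SymE 5 0 2 K → EqC (act 0 (-1) ((5 : ℤ) ^ 2) 0 K) (-K) →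
  EqC (act (-1) 0 0 1 K) K → K 1 0 = K 1 5 → K 1 5 = K 2 5 → EqC K 0

/-- BS5 (from FAR of CV: `Pool.Agent.Helper38.CV.hFar`). Proof: `K2(x,y) = K(x, 5y)` satisfies `K2∘γ ≈ eps(γ) K2` for the group `Γ'` of all `γ = (a 5b; 5c d)` of determinant one, `K2∘S ≈ -K2` (`S = (0 -1; 1 0)`), `K2∘* ≈ K2`, so
`K2∘b ≈ -K2` for `b = (0 1; 1 0)` (`b = -S *`). Write `v ~ w` if `K2(gv) = K2(gw)` for all `g` in `Γ'`. By hypothesis `∞ ~ 1 ~ 2` (`K2(gv) - K2(gw) = eps(g) (K2(v) - K2(w))`). The relation `~` is invariant under `Γ'`, `*`, `b`: `K2(g * v) = K2(* (*g*) v)` etc.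
So: `*`: `∞ ~ -1 ~ -2`; `b`: `0 ~ ±1 ~ ±1/2`; `(-1 5; 0 1)` (`*` times an element of `Γ'`): `∞ ~ 3`; so `0 ~ ±1/3`; `(5 -8; 3 -5)` (`b` times an element of `Γ'`) maps `1 ↦ 3/2`, `2 ↦ 2`: `3/2 ~ 2`; `b`: `2/3 ~ 1/2`. So the cusps `∞, 0, ±1, ±2, ±3, ±1/2, ±1/3, ±3/2, ±2/3`
are all equivalent, and every `g` in `SL₂(ℤ)` is `g' ρ`, `g'` in `Γ'`, `ρ` one of the thirty matrices listed in the docstring of `Pool.Agent.Helper14.W5.S5B3b`, whose two cusps are in this list: FAR for `K2`; then `K(x,y) = K2(5x, y)`-type homogeneity gives `K`.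
Model: `Pool/Agent/Helper53/W5/M_B3b.lean` and the injectivity part of `Pool/Agent/Helper34/W5/M_E1.lean`. -/
def SEBs5 : Prop := StFar → Bs5

/-- B3b with dimension `D`: the values at words of the symbols of level `p²` lie in a space of dimension `D`. -/
def B3bE (p D : ℕ) : Prop := ∃ e : Fin D → List ℕ → ℂ, ∀ G : ℤ → ℤ → ℂ, SymE p 0 2 G →
  ∃ x : Fin D → ℂ, ∀ ls : List ℕ, OkE p ls → evw 2 ls G = ∑ i, x i * e i ls

/-- B3b for `p = 5`, `D = 2` (from AVG, EV, BS5). Proof: for `G` of level `25` let `H = (G - G∘W)/2`, `K = (H + H∘*)/2`; it has the same values at words (EV; `H∘*` is a symbol by AVG), `K∘W ≈ -K`, `K∘* ≈ K` (`W W = -25`, `* W = - W *`, `Homog`). Let `V` be the space of all such `K` (`SymE`,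
`K∘W ≈ -K`, `K∘* ≈ K`), `a : V → ℂ²`, `a K = (K 1 0 - K 1 5, K 1 5 - K 2 5)`. By BS5 `a K = 0` implies that `K` is constant, so all values at words vanish: the linear map `K ↦ (values at words)` factors through the image of `a`; extend to `ℂ²` (`LinearMap.exists_extend` or a
basis) and take `e i` = value at the unit vectors. -/
def SEB3b5 : Prop := SEAvg → SEEv → Bs5 → B3bE 5 2

/-- UB: the space of new symbols of level `p^n` modulo constants has dimension at most `dd n` (`n ≥ 3`). -/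
def UBE (p : ℕ) (dd : ℕ → ℕ) : Prop := ∀ n : ℕ, 3 ≤ n → ∃ Θ : NSE p n →ₗ[ℂ] (Fin (dd n) → ℂ),
  ∀ G : NSE p n, Θ G = 0 → EqC (G : ℤ → ℤ → ℂ) 0

/-- LB: the image of `evLE p` on the symbols of level `p^n` has dimension at least `D + ∑_{3 ≤ m ≤ n} dd m` (`n ≥ 2`). -/
def LBE (p D : ℕ) (dd : ℕ → ℕ) : Prop := ∀ n : ℕ, 2 ≤ n →
  ∃ G : Fin (DDE D dd n) → (ℤ → ℤ → ℂ), (∀ k, SymE p 0 n (G k)) ∧
  LinearIndependent ℂ (fun k => evLE p (G k))

/-- Core: a new symbol of level `p^n`, `n ≥ 3`, with `W = -1`, `* = +1` which is killed by all words is constant. -/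
def CoreE (p : ℕ) : Prop := ∀ (n : ℕ) (G : ℤ → ℤ → ℂ), 3 ≤ n → NewSymE p n G →
  (∀ ls : List ℕ, OkE p ls → evw 2 ls G = 0) → EqC G 0

/-- CORE. Proof from B3a, B3b, UB, LB as in project W5 (`Pool/Agent/Helper71/W5/M_CoreOf.lean`, with `XSP, NSP, evLP, dd5` replaced by `XSE, NSE, evLE, dd`; base of the induction: level `2`, where `finrank ≤ D` by B3b (span of `D` vectors)
and `DDE D dd 2 = D`). -/
def SECoreOf : Prop := SEB3a → ∀ (p D : ℕ) (dd : ℕ → ℕ), p.Prime → p ≠ 2 → B3bE p D → UBE p dd →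
  LBE p D dd → CoreE p

/-- Core for symbols of any type: killed by all words, `W = -1`, `* = +1` implies constant, at level `p^n`. -/
def CoreW (p n : ℕ) : Prop := ∀ G : ℤ → ℤ → ℂ, SymE p 0 n G →
  EqC (act 0 (-1) ((p : ℤ) ^ n) 0 G) (-G) → EqC (act (-1) 0 0 1 G) G →
  (∀ ls : List ℕ, OkE p ls → evw 2 ls G = 0) → EqC G 0

/-- CORE2 (levels `25`). Proof: let `V` be the space of all `K` with `SymE 5 0 2 K`, `K∘W ≈ -K`, `K∘* ≈ K`, and `a : V → ℂ²`, `a K = (K 1 0 - K 1 5, K 1 5 - K 2 5)`; by BS5 the kernel of `a` consists of constants, on which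
`evLE 5` vanishes (`EqC`-invariance of the values, as in CoreOf). Every symbol `G` of level `25` has the same values at words as an element of `V` (proof of `SEB3b5`), so by LB (`n = 2`, `DDE 2 dd 2 = 2`) `finrank (V.map (evLE 5)) ≥ 2`. `evLE 5` factors through the range of `a`
(dimension `≤ 2`), so it is injective on the range of `a`: if `evLE 5 K = 0` then `a K = 0`, so `K` is constant. -/
def SECore2 : Prop := ∀ dd : ℕ → ℕ, SEAvg → SEEv → Bs5 → LBE 5 2 dd → CoreW 5 2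

/-- CORE1 (level `5`; from FAR of CV). Only the empty word is needed: `G 1 0 = G 0 1`. Proof: for `g = (a b; 5c d)` of determinant one and cusps `v, w`: `G(gv) - G(gw) = eps(g) (G v - G w)`. `G∞ = G0`. `T = (1 1; 0 1)`: `G1 = G(T0)`, `G∞ = G(T∞)`: `G1 - G∞ = -(G0 - G∞) = 0`. Let `x = G(1/2) - G(0)`.
`τ3 = (3 -2; 5 -3)` swaps `1/2` and `1` and `G1 = G0`, no condition. `*`: `G(-v) - G(-w) = G(v) - G(w)`, so `G(-1/2) - G(0) = x`; `-1/2 = T⁻¹(1/2)`: `G(-1/2) - G(-1) = -(G(1/2) - G(0)) = -x` (`T⁻¹ 0 = -1`, `eps T⁻¹ = -1`), and `G(-1) = G(∞)`: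
so `x = -x`, `x = 0`. So `∞ ~ 0 ~ 1 ~ 1/2` for all `g` in `Γ₀(5)` and every `g` in `SL₂(ℤ)` is `g' ρ` with `ρ` one of `1, (0 -1; 1 0), (1 0; 1 1), (1 0; -1 1), (1 0; 2 1), (1 1; 1 2)`: FAR, as in the proof of `S5O1` (iii) (`Pool.Agent.Helper14.W5`). -/
def SECore1 : Prop := StFar → CoreW 5 1

end Pool.Agent.Helper93.TLE
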