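import Pool.Agent.Helper4.TL.Eps

/-!
# Project TLE (levels `4 p^n`, `p` odd): further definitions

`eps`, `OkE`, `SymE`, `evLE`, `NewSymE`, `NSE` are in `Helper4/TL/Eps.lean`.
-/

set_option autoImplicit false

namespace Pool.Agent.Helper93.TLE

open Pool.Agent.Helper14.CV (Homog EqC act Tl)
open Pool.Agent.Helper28.WK (Tw evw)
open Pool.Agent.Helper4.TL

/-- The sum over the translations by `2i/p`. -/
def tSE (p : ℕ) (G : ℤ → ℤ → ℂ) : ℤ → ℤ → ℂ := ∑ i ∈ Finset.range p, act p (2 * i) 0 p G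

/-- The sum over the lower translations `(1 0; 2 i p^(n-1) 1)`. -/
def sSE (p n : ℕ) (G : ℤ → ℤ → ℂ) : ℤ → ℤ → ℂ :=
  ∑ i ∈ Finset.range p, act 1 0 (2 * i * (p : ℤ) ^ (n - 1)) 1 G

/-- Twisted symbols of level `p^n` as a subspace. -/
def XSE (p n : ℕ) : Submodule ℂ (ℤ → ℤ → ℂ) where
  carrier := {G | SymE p 0 n G}
  add_mem' h h' := SymE.add h h'
  zero_mem' := SymE.zero p 0 n
  smul_mem' s _ h := SymE.smul s h

/-- `D + ∑_{3 ≤ m ≤ n} dd m`. -/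
def DDE (D : ℕ) (dd : ℕ → ℕ) (n : ℕ) : ℕ := D + ∑ m ∈ Finset.Ico 3 (n + 1), dd m

/-- The dimension of the new symbols of level `5^n` (`W = -1`, `* = +1`, twisted by `eps`), `n ≥ 3`. -/
def ddE5 (n : ℕ) : ℕ :=
  if n % 2 = 1 then 4 * 25 ^ (n / 2 - 1) + 2 * 5 ^ (n / 2 - 1)
  else 20 * 25 ^ (n / 2 - 2) + 2 * 5 ^ (n / 2 - 2)

end Pool.Agent.Helper93.TLE
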