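import Pool.Agent.Helper93.TLE.StB
import Pool.Agent.Helper70.TLE.M_Hk
import Pool.Agent.Helper68.TLE.M_HkS
import Pool.Agent.Helper25.TLE.M_HkW
import Pool.Agent.Helper9.TLE.M_Ev
import Pool.Agent.Helper42.TLE.M_Avg
import Pool.Agent.Helper85.TLE.M_Mon
import Pool.Agent.Helper26.TLE.M_Com
import Pool.Agent.Helper6.TLE.M_B3a
import Pool.Agent.Helper16.TLE.M_Bs5
import Pool.Agent.Helper43.TLE.M_B3b
import Pool.Agent.Helper38.TLE.M_CoreOf
import Pool.Agent.Helper99.TLE.M_Core2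
import Pool.Agent.Helper21.TLE.M_Core1
import Pool.Agent.Helper38.CV.M_Far
import Pool.Agent.Helper52.TL.M_EDGE
import Pool.Agent.Helper36.TL.M_BALE
import Pool.Agent.Helper33.TL.M_SPLE
import Pool.Agent.Helper48.TL.M_DIMEE
import Pool.Agent.Helper46.TL.M_DIMOE
import Pool.Agent.Helper63.TL.M_E1E
import Pool.Agent.Helper87.TL.M_O1E
import Pool.Agent.Helper77.TL.M_UBE
import Pool.Agent.Helper63.W5.M_PlA
import Pool.Agent.Helper10.W5.M_PlU
import Pool.Agent.Helper71.W5.M_Typ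
import Pool.Agent.Helper7.W5.M_DimK
import Pool.Agent.Helper10.W3.M_Trq

/-!
# Project TL: the cores for levels `4·5^n` from the lower bound
-/

set_option autoImplicit false

namespace Pool.Agent.Helper93.TLE

open Pool.Agent.Helper4.TL

theorem avgE : SEAvg := Pool.Agent.Helper42.TLE.hAvg

theorem evE : SEEv :=
  Pool.Agent.Helper9.TLE.hEv (Pool.Agent.Helper68.TLE.hHkS Pool.Agent.Helper70.TLE.hHk)
    (Pool.Agent.Helper25.TLE.hHkW Pool.Agent.Helper70.TLE.hHk)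

theorem b3aE : SEB3a :=
  Pool.Agent.Helper6.TLE.hB3a avgE Pool.Agent.Helper85.TLE.hMon Pool.Agent.Helper26.TLE.hCom evE

theorem bs5E : Bs5 := Pool.Agent.Helper16.TLE.hBs5 Pool.Agent.Helper38.CV.hFar

/-- The upper bound for levels `4·5^n`. -/
theorem ub5E : UBE 5 ddE5 :=
  Pool.Agent.Helper77.TL.hUBE Pool.Agent.Helper36.TL.hBalE
    (Pool.Agent.Helper63.TL.hE1E (Pool.Agent.Helper52.TL.hEdgE Pool.Agent.Helper63.W5.hPlA Pool.Agent.Helper10.W5.hPlU)
      Pool.Agent.Helper63.W5.hPlA Pool.Agent.Helper71.W5.hTyp Pool.Agent.Helper38.CV.hFar)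
    (Pool.Agent.Helper87.TL.hO1E (Pool.Agent.Helper52.TL.hEdgE Pool.Agent.Helper63.W5.hPlA Pool.Agent.Helper10.W5.hPlU)
      Pool.Agent.Helper63.W5.hPlA Pool.Agent.Helper71.W5.hTyp Pool.Agent.Helper38.CV.hFar)
    (Pool.Agent.Helper48.TL.hDimEE Pool.Agent.Helper71.W5.hTyp
      (Pool.Agent.Helper7.W5.hDimK Pool.Agent.Helper10.W3.hTrq) Pool.Agent.Helper33.TL.hSplE)
    (Pool.Agent.Helper46.TL.hDimOE Pool.Agent.Helper71.W5.hTyp
      (Pool.Agent.Helper7.W5.hDimK Pool.Agent.Helper10.W3.hTrq) Pool.Agent.Helper33.TL.hSplE)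

theorem b3b5E : B3bE 5 2 := Pool.Agent.Helper43.TLE.hB3b avgE evE bs5E

/-- The core for levels `4·5^n`, `n ≥ 3`, from the lower bound. -/
theorem core5E (lb : LBE 5 2 ddE5) : CoreE 5 :=
  Pool.Agent.Helper38.TLE.hCoreOf b3aE 5 2 ddE5 (by norm_num) (by norm_num) b3b5E ub5E lb

theorem core52E (lb : LBE 5 2 ddE5) : CoreW 5 2 :=
  Pool.Agent.Helper99.TLE.hCore2 ddE5 avgE evE bs5E lb

theorem core51E : CoreW 5 1 := Pool.Agent.Helper21.TLE.hCore1 Pool.Agent.Helper38.CV.hFar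

/-- The core for level `4`. -/
theorem core0E (p : ℕ) : CoreW p 0 := by
  intro G hS _ _ hev
  apply Pool.Agent.Helper38.CV.hFar ℂ inferInstance G hS.1
  intro a b c d h
  have h01 : G 1 0 - G 0 1 = 0 := hev [] (by intro l hl; simp at hl)
  have e := (hS.2 a b c d h (by simp) (by simp)).diff (p := 1) (q := 0) (p' := 0) (q' := 1)
    (Or.inl one_ne_zero) (Or.inr one_ne_zero)
  simp only [Pool.Agent.Helper14.CV.act, Pi.smul_apply, mul_one, mul_zero, add_zero, zero_add] at e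
  rw [← smul_sub, h01, smul_zero] at e
  exact sub_eq_zero.1 e

end Pool.Agent.Helper93.TLE
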