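import Pool.Agent.Helper93.TLE.StB7
import Pool.Agent.Helper93.TLE.Asm5
import Pool.Agent.Helper73.TLE.M_Bs7
import Pool.Agent.Helper36.TLE.M_B3b7
import Pool.Agent.Helper66.TLE.M_Core27
import Pool.Agent.Helper6.TLE.M_Core17
import Pool.Agent.Helper22.S7.M_Rep

/-!
# Project TL: the cores for levels `4·7^n` from the upper and the lower bound
-/

set_option autoImplicit false

namespace Pool.Agent.Helper93.TLE

open Pool.Agent.Helper4.TL

theorem bs7E : Bs7 := Pool.Agent.Helper73.TLE.hBs7 Pool.Agent.Helper38.CV.hFar Pool.Agent.Helper22.S7.hRep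

theorem b3b7E : B3bE 7 3 := Pool.Agent.Helper36.TLE.hB3b7 avgE evE bs7E

/-- The core for levels `4·7^n`, `n ≥ 3`. -/
theorem core7E (ub : UBE 7 ddE7) (lb : LBE 7 3 ddE7) : CoreE 7 :=
  Pool.Agent.Helper38.TLE.hCoreOf b3aE 7 3 ddE7 (by norm_num) (by norm_num) b3b7E ub lb

theorem core72E (lb : LBE 7 3 ddE7) : CoreW 7 2 :=
  Pool.Agent.Helper66.TLE.hCore27 ddE7 avgE evE bs7E lb

theorem core71E : CoreW 7 1 := Pool.Agent.Helper6.TLE.hCore17 Pool.Agent.Helper38.CV.hFar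

end Pool.Agent.Helper93.TLE
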