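import Pool.Agent.Helper93.TLE.Div
import Pool.Agent.Helper4.TL.Eps

/-!
# Rows of Hecke operators from lists, checked by computation

`E u v G x` is the twisted value of `G` on the path from `g v` to `g u` (`x` the plane coordinates of `g`), `tr a b c d` the translation by `(a b; pc d)`. `Chk` is a decidable condition on a pair of lists `L`
which implies that `L` is the row of the Hecke operator `T_l` for the path from `v` to `u`.
-/

set_option autoImplicit false

namespace Pool.Agent.Helper93.TLE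

open Pool.Agent.Helper14.CV (Homog EqC act Tl)
open Pool.Agent.Helper4.TL

/-- A term `(k, a, b, c, d)` stands for `k` times the operator of `(a b; pc d)`. -/
abbrev T5 : Type := ℤ × ℤ × ℤ × ℤ × ℤ

/-- The matrices `(l 0; 0 1)`, `(1 j; 0 l)`, as `(δ1, δ2, δ4)`. -/
def dls (l : ℤ) (J : List ℤ) : List (ℤ × ℤ × ℤ) := (l, 0, 1) :: J.map fun j => (1, j, l)

/-- `l` divides `δ m`. -/
def cls (p l : ℤ) (δ : ℤ × ℤ × ℤ) (t : T5) : Prop :=
  l ∣ δ.1 * t.2.1 + δ.2.1 * (p * t.2.2.2.1) ∧ l ∣ δ.1 * t.2.2.1 + δ.2.1 * t.2.2.2.2 ∧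
    l ∣ δ.2.2 * t.2.2.2.1 ∧ l ∣ δ.2.2 * t.2.2.2.2

instance (p l : ℤ) (δ : ℤ × ℤ × ℤ) (t : T5) : Decidable (cls p l δ t) := by
  unfold cls; infer_instance

/-- The entry `a` of `γ = δ m / l`. -/
def ga (p l : ℤ) (δ : ℤ × ℤ × ℤ) (t : T5) : ℤ := (δ.1 * t.2.1 + δ.2.1 * (p * t.2.2.2.1)) / l

/-- The entry `b` of `γ`. -/
def gb (l : ℤ) (δ : ℤ × ℤ × ℤ) (t : T5) : ℤ := (δ.1 * t.2.2.1 + δ.2.1 * t.2.2.2.2) / l

/-- The entry `c` of `γ = (a b; pc d)`. -/
def gc (l : ℤ) (δ : ℤ × ℤ × ℤ) (t : T5) : ℤ := (δ.2.2 * t.2.2.2.1) / l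

/-- The entry `d` of `γ`. -/
def gd (l : ℤ) (δ : ℤ × ℤ × ℤ) (t : T5) : ℤ := (δ.2.2 * t.2.2.2.2) / l

/-- The coefficient of the path `γ π_f`. -/
def gk (p l : ℤ) (δ : ℤ × ℤ × ℤ) (t : T5) : ℤ :=
  t.1 * eps (ga p l δ t) (gb l δ t) (p * gc l δ t) (gd l δ t)

/-- The cusps of the terms of a list for `δ`. -/
def cuspL (p l e : ℤ) (δ : ℤ × ℤ × ℤ) (L : List T5) : List (ℤ × ℤ × ℤ) :=
  (L.filter fun t => cls p l δ t).flatMap fun t =>
    [(-gk p l δ t, ga p l δ t + gb l δ t * e, p * gc l δ t + gd l δ t * e),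
      (gk p l δ t, gb l δ t, gd l δ t)]

/-- The check. -/
def Chk (p l : ℤ) (J : List ℤ) (e0 e1 u1 u2 v1 v2 : ℤ) (L0 L1 : List T5) : Prop :=
  (∀ t ∈ L0, ((dls l J).filter fun δ => cls p l δ t).length = 1) ∧
  (∀ t ∈ L1, ((dls l J).filter fun δ => cls p l δ t).length = 1) ∧
  (∀ δ ∈ dls l J, (∀ t ∈ L0, cls p l δ t →
    ga p l δ t * gd l δ t - p * gb l δ t * gc l δ t = 1) ∧
    (∀ t ∈ L1, cls p l δ t → ga p l δ t * gd l δ t - p * gb l δ t * gc l δ t = 1) ∧
    dz ((1, δ.1 * u1 + δ.2.1 * u2, δ.2.2 * u2) :: (-1, δ.1 * v1 + δ.2.1 * v2, δ.2.2 * v2) ::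
      (cuspL p l e0 δ L0 ++ cuspL p l e1 δ L1)))

instance (p l : ℤ) (J : List ℤ) (e0 e1 u1 u2 v1 v2 : ℤ) (L0 L1 : List T5) :
    Decidable (Chk p l J e0 e1 u1 u2 v1 v2 L0 L1) := by unfold Chk; infer_instance

/-- Sum over the terms with exactly one matrix. -/
theorem sum_filter_one {A B R : Type} [AddCommGroup R] (D : List A) (P : A → B → Prop)
    [∀ a b, Decidable (P a b)] (L : List B) (h : ∀ t ∈ L, (D.filter fun δ => P δ t).length = 1)
    (H : B → R) :
    (D.map fun δ => ((L.filter fun t => P δ t).map H).sum).sum = (L.map H).sum := by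
  induction L with
  | nil => simp
  | cons t L ih =>
    have ih' := ih fun u hu => h u (List.mem_cons_of_mem _ hu)
    have h1 := h t List.mem_cons_self
    have e : ∀ δ : A, (((t :: L).filter fun t => P δ t).map H).sum =
        (if P δ t then H t else 0) + ((L.filter fun t => P δ t).map H).sum := by
      intro δ
      by_cases hp : P δ t
      · rw [if_pos hp, List.filter_cons_of_pos (by simpa using hp)]
        simp
      · rw [if_neg hp, List.filter_cons_of_neg (by simpa using hp), zero_add]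
    simp only [e, List.map_cons, List.sum_cons]
    rw [List.sum_map_add, ih']
    congr 1
    have e2 : ∀ D : List A, (D.map fun δ => if P δ t then H t else 0).sum =
        (D.filter fun δ => P δ t).length • H t := by
      intro D
      induction D with
      | nil => simp
      | cons a D ihD =>
        by_cases hp : P a t
        · rw [List.filter_cons_of_pos (by simpa using hp)]
          simp only [List.map_cons, List.sum_cons, if_pos hp, List.length_cons, ihD, succ_nsmul]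
          rw [add_comm]
        · rw [List.filter_cons_of_neg (by simpa using hp)]
          simp only [List.map_cons, List.sum_cons, if_neg hp, zero_add, ihD]
    rw [e2, h1, one_nsmul]

section

variable {R X : Type} [AddCommGroup R]

/-- The value of the cusps of a list. -/
theorem cuspL_sum (p l e : ℤ) (δ : ℤ × ℤ × ℤ) (L : List T5) (G : ℤ → ℤ → R) :
    ((cuspL p l e δ L).map fun t => t.1 • G t.2.1 t.2.2).sum =
      -(((L.filter fun t => cls p l δ t).map fun t => gk p l δ t •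
        (G (ga p l δ t + gb l δ t * e) (p * gc l δ t + gd l δ t * e) - G (gb l δ t) (gd l δ t))).sum) := by
  unfold cuspL
  induction (L.filter fun t => cls p l δ t) with
  | nil => simp
  | cons t L ih =>
    simp only [List.flatMap_cons, List.map_append, List.sum_append, List.map_cons, List.map_nil,
      List.sum_cons, List.sum_nil, ih, smul_sub, neg_smul, neg_add_rev, neg_sub]
    abel

/-- One path: the value on the path from `δ v` to `δ u` in terms of the translated basic paths. -/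
theorem path_row (p l : ℤ) (tr : ℤ → ℤ → ℤ → ℤ → (X → R) → X → R)
    (E : ℤ → ℤ → ℤ → ℤ → X → R) (G : ℤ → ℤ → R) (hG : Homog G) (e0 e1 : ℤ)
    (hE : ∀ x : X, ∃ s a b c d : ℤ, a * d - b * c ≠ 0 ∧ ∀ u1 u2 v1 v2 : ℤ,
      E u1 u2 v1 v2 x = s • (G (a * u1 + b * u2) (c * u1 + d * u2) -
        G (a * v1 + b * v2) (c * v1 + d * v2)))
    (hT : ∀ a b c d e : ℤ, a * d - p * b * c = 1 → ∀ x : X,
      E (a + b * e) (p * c + d * e) b d x = eps a b (p * c) d • tr a b c d (E 1 e 0 1) x)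
    (δ : ℤ × ℤ × ℤ) (L0 L1 : List T5) (u1 u2 v1 v2 : ℤ)
    (h0 : ∀ t ∈ L0, cls p l δ t → ga p l δ t * gd l δ t - p * gb l δ t * gc l δ t = 1)
    (h1 : ∀ t ∈ L1, cls p l δ t → ga p l δ t * gd l δ t - p * gb l δ t * gc l δ t = 1)
    (hz : dz ((1, u1, u2) :: (-1, v1, v2) :: (cuspL p l e0 δ L0 ++ cuspL p l e1 δ L1))) (x : X) :
    E u1 u2 v1 v2 x =
      (((L0.filter fun t => cls p l δ t).map fun t =>
        t.1 • tr (ga p l δ t) (gb l δ t) (gc l δ t) (gd l δ t) (E 1 e0 0 1) x).sum) +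
      (((L1.filter fun t => cls p l δ t).map fun t =>
        t.1 • tr (ga p l δ t) (gb l δ t) (gc l δ t) (gd l δ t) (E 1 e1 0 1) x).sum) := by
  obtain ⟨s, a, b, c, d, hdet, hs⟩ := hE x
  have hact : Homog (act a b c d G) := hG.act hdet
  have hz' := dz_sum hact _ hz
  simp only [List.map_cons, List.sum_cons, List.map_append, List.sum_append, one_smul,
    neg_one_smul] at hz'
  rw [cuspL_sum, cuspL_sum] at hz'
  have main : act a b c d G u1 u2 - act a b c d G v1 v2 =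
      (((L0.filter fun t => cls p l δ t).map fun t => gk p l δ t •
        (act a b c d G (ga p l δ t + gb l δ t * e0) (p * gc l δ t + gd l δ t * e0) -
          act a b c d G (gb l δ t) (gd l δ t))).sum) +
      (((L1.filter fun t => cls p l δ t).map fun t => gk p l δ t •
        (act a b c d G (ga p l δ t + gb l δ t * e1) (p * gc l δ t + gd l δ t * e1) -
          act a b c d G (gb l δ t) (gd l δ t))).sum) := by
    rw [← sub_eq_zero, ← hz']
    abel
  have conv : ∀ (e : ℤ) (L : List T5),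
      (∀ t ∈ L, cls p l δ t → ga p l δ t * gd l δ t - p * gb l δ t * gc l δ t = 1) →
      s • ((L.filter fun t => cls p l δ t).map fun t => gk p l δ t •
        (act a b c d G (ga p l δ t + gb l δ t * e) (p * gc l δ t + gd l δ t * e) -
          act a b c d G (gb l δ t) (gd l δ t))).sum =
      ((L.filter fun t => cls p l δ t).map fun t =>
        t.1 • tr (ga p l δ t) (gb l δ t) (gc l δ t) (gd l δ t) (E 1 e 0 1) x).sum := by
    intro e L hL
    rw [List.smul_sum, List.map_map]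
    congr 1
    refine List.map_congr_left fun t ht => ?_
    have ht' := List.mem_filter.mp ht
    have hc : cls p l δ t := by simpa using ht'.2
    have e1 := hT _ _ _ _ e (hL t ht'.1 hc) x
    rw [hs] at e1
    show s • (gk p l δ t • _) = _
    rw [smul_comm]
    have e2 : s • (act a b c d G (ga p l δ t + gb l δ t * e) (p * gc l δ t + gd l δ t * e) -
        act a b c d G (gb l δ t) (gd l δ t)) =
        eps (ga p l δ t) (gb l δ t) (p * gc l δ t) (gd l δ t) •
          tr (ga p l δ t) (gb l δ t) (gc l δ t) (gd l δ t) (E 1 e 0 1) x := e1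
    rw [e2, gk, mul_smul, smul_smul (eps _ _ _ _), eps_sq, one_smul]
  rw [hs]
  show s • (act a b c d G u1 u2 - act a b c d G v1 v2) = _
  rw [main, smul_add, conv e0 L0 h0, conv e1 L1 h1]

/-- The row of `T_l` from a checked pair of lists. -/
theorem row_of_chk (p l : ℤ) (hl : l ≠ 0) (hpl : ¬ p ∣ l) (hp1 : ¬ p ∣ 1) (J : List ℤ)
    (tr : ℤ → ℤ → ℤ → ℤ → (X → R) → X → R)
    (htr : ∀ a b c d : ℤ, ∃ φ : X → X, ∀ (F : X → R) (x : X), tr a b c d F x = F (φ x))
    (hM : ∀ (F : X → R) (a b c d a' b' c' d' : ℤ), ¬ p ∣ a → ¬ p ∣ d → ¬ p ∣ a' → ¬ p ∣ d' →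
      tr a b c d (tr a' b' c' d' F) =
        tr (a * a' + p * b * c') (a * b' + b * d') (c * a' + d * c') (p * c * b' + d * d') F)
    (E : ℤ → ℤ → ℤ → ℤ → X → R) (G : ℤ → ℤ → R) (hG : Homog G) (e0 e1 : ℤ)
    (hE : ∀ x : X, ∃ s a b c d : ℤ, a * d - b * c ≠ 0 ∧ ∀ u1 u2 v1 v2 : ℤ,
      E u1 u2 v1 v2 x = s • (G (a * u1 + b * u2) (c * u1 + d * u2) -
        G (a * v1 + b * v2) (c * v1 + d * v2)))
    (hT : ∀ a b c d e : ℤ, a * d - p * b * c = 1 → ∀ x : X,
      E (a + b * e) (p * c + d * e) b d x = eps a b (p * c) d • tr a b c d (E 1 e 0 1) x)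
    (u1 u2 v1 v2 : ℤ) (L0 L1 : List T5) (hc : Chk p l J e0 e1 u1 u2 v1 v2 L0 L1) (x : X) (V : R)
    (hV : V = tr 1 0 0 l (E (l * u1) u2 (l * v1) v2) x +
      (J.map fun j => tr l (-j) 0 1 (E (u1 + j * u2) (l * u2) (v1 + j * v2) (l * v2)) x).sum) :
    V = (L0.map fun t => t.1 • tr t.2.1 t.2.2.1 t.2.2.2.1 t.2.2.2.2 (E 1 e0 0 1) x).sum +
      (L1.map fun t => t.1 • tr t.2.1 t.2.2.1 t.2.2.2.1 t.2.2.2.2 (E 1 e1 0 1) x).sum := by
  obtain ⟨hc0, hc1, hc2⟩ := hc
  have e1' : V = ((dls l J).map fun δ => tr δ.2.2 (-δ.2.1) 0 δ.1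
      (E (δ.1 * u1 + δ.2.1 * u2) (δ.2.2 * u2) (δ.1 * v1 + δ.2.1 * v2) (δ.2.2 * v2)) x).sum := by
    rw [hV]
    unfold dls
    simp only [List.map_cons, List.sum_cons, List.map_map]
    congr 1
    · simp only [neg_zero, zero_mul, add_zero, one_mul]
    · congr 1
      refine List.map_congr_left fun j _ => ?_
      simp only [Function.comp_apply, one_mul]
  have step : ∀ δ ∈ dls l J, tr δ.2.2 (-δ.2.1) 0 δ.1
      (E (δ.1 * u1 + δ.2.1 * u2) (δ.2.2 * u2) (δ.1 * v1 + δ.2.1 * v2) (δ.2.2 * v2)) x =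
      ((L0.filter fun t => cls p l δ t).map fun t =>
        t.1 • tr t.2.1 t.2.2.1 t.2.2.2.1 t.2.2.2.2 (E 1 e0 0 1) x).sum +
      ((L1.filter fun t => cls p l δ t).map fun t =>
        t.1 • tr t.2.1 t.2.2.1 t.2.2.2.1 t.2.2.2.2 (E 1 e1 0 1) x).sum := by
    intro δ hδ
    obtain ⟨h0, h1, hz⟩ := hc2 δ hδ
    have hδ' : (¬ p ∣ δ.1 ∧ ¬ p ∣ δ.2.2) ∧ δ.1 * δ.2.2 = l := by
      unfold dls at hδ
      rcases List.mem_cons.mp hδ with rfl | hδ
      · exact ⟨⟨hpl, hp1⟩, mul_one _⟩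
      · obtain ⟨j, _, rfl⟩ := List.mem_map.mp hδ
        exact ⟨⟨hp1, hpl⟩, one_mul _⟩
    obtain ⟨φ, hφ⟩ := htr δ.2.2 (-δ.2.1) 0 δ.1
    rw [hφ, path_row p l tr E G hG e0 e1 hE hT δ L0 L1 _ _ _ _ h0 h1 hz (φ x)]
    have conv : ∀ (e : ℤ) (L : List T5),
        (∀ t ∈ L, cls p l δ t → ga p l δ t * gd l δ t - p * gb l δ t * gc l δ t = 1) →
        ((L.filter fun t => cls p l δ t).map fun t =>
          t.1 • tr (ga p l δ t) (gb l δ t) (gc l δ t) (gd l δ t) (E 1 e 0 1) (φ x)).sum =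
        ((L.filter fun t => cls p l δ t).map fun t =>
          t.1 • tr t.2.1 t.2.2.1 t.2.2.2.1 t.2.2.2.2 (E 1 e 0 1) x).sum := by
      intro e L hL
      congr 1
      refine List.map_congr_left fun t ht => ?_
      have ht' := List.mem_filter.mp ht
      have hcl : cls p l δ t := by simpa using ht'.2
      have hdet := hL t ht'.1 hcl
      obtain ⟨d1, d2, d3, d4⟩ := hcl
      have ea : l * ga p l δ t = δ.1 * t.2.1 + δ.2.1 * (p * t.2.2.2.1) := Int.mul_ediv_cancel' d1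
      have eb : l * gb l δ t = δ.1 * t.2.2.1 + δ.2.1 * t.2.2.2.2 := Int.mul_ediv_cancel' d2
      have ec : l * gc l δ t = δ.2.2 * t.2.2.2.1 := Int.mul_ediv_cancel' d3
      have ed : l * gd l δ t = δ.2.2 * t.2.2.2.2 := Int.mul_ediv_cancel' d4
      have ha : ¬ p ∣ ga p l δ t := by
        intro h
        apply hp1
        rw [← hdet]
        exact dvd_sub (Dvd.dvd.mul_right h _) (by rw [mul_assoc]; exact Dvd.intro _ rfl)
      have hd : ¬ p ∣ gd l δ t := by
        intro h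
        apply hp1
        rw [← hdet]
        exact dvd_sub (Dvd.dvd.mul_left h _) (by rw [mul_assoc]; exact Dvd.intro _ rfl)
      congr 1
      rw [← hφ (tr (ga p l δ t) (gb l δ t) (gc l δ t) (gd l δ t) (E 1 e 0 1)) x,
        hM _ _ _ _ _ _ _ _ _ hδ'.1.2 hδ'.1.1 ha hd]
      have f1 : δ.2.2 * ga p l δ t + p * -δ.2.1 * gc l δ t = t.2.1 := by
        apply mul_left_cancel₀ hl
        linear_combination δ.2.2 * ea - p * δ.2.1 * ec + t.2.1 * hδ'.2
      have f2 : δ.2.2 * gb l δ t + -δ.2.1 * gd l δ t = t.2.2.1 := by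
        apply mul_left_cancel₀ hl
        linear_combination δ.2.2 * eb - δ.2.1 * ed + t.2.2.1 * hδ'.2
      have f3 : 0 * ga p l δ t + δ.1 * gc l δ t = t.2.2.2.1 := by
        apply mul_left_cancel₀ hl
        linear_combination δ.1 * ec + t.2.2.2.1 * hδ'.2
      have f4 : p * 0 * gb l δ t + δ.1 * gd l δ t = t.2.2.2.2 := by
        apply mul_left_cancel₀ hl
        linear_combination δ.1 * ed + t.2.2.2.2 * hδ'.2
      rw [f1, f2, f3, f4]
    rw [conv e0 L0 h0, conv e1 L1 h1]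
  rw [e1', List.map_congr_left step, List.sum_map_add, sum_filter_one _ _ _ hc0,
    sum_filter_one _ _ _ hc1]

end

end Pool.Agent.Helper93.TLE
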