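import Pool.Agent.Helper14.CV.Basic

/-!
# Formal sums of cusps

Decidable criteria for identities between values of homogeneous functions at cusps (used for the rows of Hecke operators).
-/

set_option autoImplicit false

namespace Pool.Agent.Helper93.TLE

open Pool.Agent.Helper14.CV (Homog)

/-- A formal sum all of whose coefficients vanish has value zero. -/
theorem fsum_zero {K R : Type} [DecidableEq K] [AddCommGroup R] (D : List (ℤ × K)) (H : K → R)
    (h : ∀ t ∈ D, (D.map fun u => if u.2 = t.2 then u.1 else 0).sum = 0) :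
    (D.map fun t => t.1 • H t.2).sum = 0 := by
  have key : ∀ (L : List (ℤ × K)) (S : Finset K), (∀ t ∈ L, t.2 ∈ S) →
      (L.map fun t => t.1 • H t.2).sum =
        ∑ κ ∈ S, (L.map fun u => if u.2 = κ then u.1 else 0).sum • H κ := by
    intro L S
    induction L with
    | nil => intro _; simp
    | cons t L ih =>
      intro hS
      have h1 : t.2 ∈ S := hS t List.mem_cons_self
      have h2 := ih fun u hu => hS u (List.mem_cons_of_mem _ hu)
      simp only [List.map_cons, List.sum_cons, add_smul, Finset.sum_add_distrib]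
      rw [h2]
      congr 1
      rw [Finset.sum_eq_single t.2]
      · rw [if_pos rfl]
      · intro κ _ hκ
        rw [if_neg (Ne.symm hκ), zero_smul]
      · intro hn; exact absurd h1 hn
  rw [key D (D.map Prod.snd).toFinset (fun t ht => by
    rw [List.mem_toFinset]; exact List.mem_map_of_mem ht)]
  refine Finset.sum_eq_zero fun κ hκ => ?_
  rw [List.mem_toFinset, List.mem_map] at hκ
  obtain ⟨t, ht, rfl⟩ := hκ
  rw [h t ht, zero_smul]

/-- The primitive vector of the cusp of `(p, q)`. -/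
def nrm (p q : ℤ) : ℤ × ℤ :=
  if q < 0 ∨ (q = 0 ∧ p < 0) then (-(p / (Int.gcd p q : ℤ)), -(q / (Int.gcd p q : ℤ)))
  else (p / (Int.gcd p q : ℤ), q / (Int.gcd p q : ℤ))

theorem nrm_eq {R : Type} {G : ℤ → ℤ → R} (hG : Homog G) (p q : ℤ) (h : p ≠ 0 ∨ q ≠ 0) :
    G (nrm p q).1 (nrm p q).2 = G p q := by
  have hg : (Int.gcd p q : ℤ) ≠ 0 := by
    intro h0
    have h0' : Int.gcd p q = 0 := by exact_mod_cast h0
    rw [Int.gcd_eq_zero_iff] at h0'
    rcases h with h | h
    · exact h h0'.1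
    · exact h h0'.2
  have e1 : (Int.gcd p q : ℤ) * (p / (Int.gcd p q : ℤ)) = p :=
    Int.mul_ediv_cancel' (Int.gcd_dvd_left ..)
  have e2 : (Int.gcd p q : ℤ) * (q / (Int.gcd p q : ℤ)) = q :=
    Int.mul_ediv_cancel' (Int.gcd_dvd_right ..)
  have hn : p / (Int.gcd p q : ℤ) ≠ 0 ∨ q / (Int.gcd p q : ℤ) ≠ 0 := by
    rcases h with h | h
    · left; intro h0; rw [h0, mul_zero] at e1; exact h e1.symm
    · right; intro h0; rw [h0, mul_zero] at e2; exact h e2.symm
  have e3 := hG (Int.gcd p q : ℤ) (p / (Int.gcd p q : ℤ)) (q / (Int.gcd p q : ℤ)) hg hn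
  rw [e1, e2] at e3
  unfold nrm
  split_ifs with hc
  · have e4 := hG (-1) (p / (Int.gcd p q : ℤ)) (q / (Int.gcd p q : ℤ)) (by norm_num) hn
    simp only [neg_one_mul] at e4
    show G (-(p / (Int.gcd p q : ℤ))) (-(q / (Int.gcd p q : ℤ))) = G p q
    rw [e4, e3]
  · exact e3.symm

/-- All coefficients of the formal sum of cusps vanish. -/
def dz (D : List (ℤ × ℤ × ℤ)) : Prop :=
  (∀ t ∈ D, t.2.1 ≠ 0 ∨ t.2.2 ≠ 0) ∧
    ∀ t ∈ D, (D.map fun u => if nrm u.2.1 u.2.2 = nrm t.2.1 t.2.2 then u.1 else 0).sum = 0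

instance (D : List (ℤ × ℤ × ℤ)) : Decidable (dz D) := by unfold dz; infer_instance

theorem dz_sum {R : Type} [AddCommGroup R] {G : ℤ → ℤ → R} (hG : Homog G)
    (D : List (ℤ × ℤ × ℤ)) (h : dz D) : (D.map fun t => t.1 • G t.2.1 t.2.2).sum = 0 := by
  have h1 := fsum_zero (D.map fun t => (t.1, nrm t.2.1 t.2.2)) (fun κ => G κ.1 κ.2) (by
    intro t ht
    rw [List.mem_map] at ht
    obtain ⟨u, hu, rfl⟩ := ht
    rw [List.map_map]
    exact h.2 u hu)
  rw [List.map_map] at h1
  rw [← h1]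
  congr 1
  refine List.map_congr_left fun t ht => ?_
  show t.1 • G t.2.1 t.2.2 = t.1 • G (nrm t.2.1 t.2.2).1 (nrm t.2.1 t.2.2).2
  rw [nrm_eq hG _ _ (h.1 t ht)]

end Pool.Agent.Helper93.TLE
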